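import Pool.Agent.H3.AGreedy

set_option autoImplicit false

namespace Pool.Agent.Results.MP_b7f2f1_an.NotSemiGreedy

section defs
variable {X : Type} [NormedAddCommGroup X] [NormedSpace ℝ X] (x : ℕ → X) (f : ℕ → X →L[ℝ] ℝ)

def IsMarkushevich : Prop :=
  (∀ k n, f k (x n) = if k = n then 1 else 0) ∧
    Dense (Submodule.span ℝ (Set.range x) : Set X) ∧ ∀ v, (∀ n, f n v = 0) → v = 0

def IsGreedySet (v : X) (A : Finset ℕ) : Prop := ∀ n ∈ A, ∀ k ∉ A, |f k v| ≤ |f n v|

noncomputable def sigma (m : ℕ) (v : X) : ℝ :=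
  sInf {r : ℝ | ∃ (B : Finset ℕ) (a : ℕ → ℝ), B.card ≤ m ∧ r = ‖v - ∑ n ∈ B, a n • x n‖}

noncomputable def sigmaProj (m : ℕ) (v : X) : ℝ :=
  sInf {r : ℝ | ∃ B : Finset ℕ, B.card ≤ m ∧ r = ‖v - ∑ n ∈ B, f n v • x n‖}

def AlmostGreedy (C : ℝ) : Prop :=
  ∀ (v : X) (A : Finset ℕ), IsGreedySet f v A →
    ‖v - ∑ n ∈ A, f n v • x n‖ ≤ C * sigmaProj x f A.card v

def SemiGreedy (C : ℝ) : Prop :=
  ∀ (v : X) (A : Finset ℕ), IsGreedySet f v A →
    sInf {r : ℝ | ∃ a : ℕ → ℝ, r = ‖v - ∑ n ∈ A, a n • x n‖} ≤ C * sigma x A.card v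

end defs

open Pool.Agent.H3.AG Finset

noncomputable def ev (n : ℕ) : L1 →L[ℝ] ℝ :=
  LinearMap.mkContinuous
    { toFun := fun z => z n, map_add' := fun _ _ => rfl, map_smul' := fun _ _ => rfl } 1
    (fun z => by simpa using abs_le_norm z n)

noncomputable def e (n : ℕ) : L1 := lp.single 1 n (1 : ℝ)

lemma e_apply (n k : ℕ) : e n k = if k = n then 1 else 0 := by
  simp [e, lp.single_apply, Pi.single_apply]

lemma smul_e (c : ℝ) (n : ℕ) : c • e n = lp.single 1 n c := by
  rw [e, ← lp.single_smul]; simp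

theorem result : ∃ (X : Type) (_ : NormedAddCommGroup X) (_ : NormedSpace ℝ X)
    (_ : CompleteSpace X) (x : ℕ → X) (f : ℕ → X →L[ℝ] ℝ),
    IsMarkushevich x f ∧ AlmostGreedy x f 1 ∧ ¬ SemiGreedy x f 1 := by
  let x : ℕ → XX := fun n => toX (e n)
  let f : ℕ → XX →L[ℝ] ℝ := fun n => ev n ∘L toXL.symm.toContinuousLinearMap
  have hf : ∀ n (z : L1), f n (toX z) = z n := fun _ _ => rfl
  have hs : ∀ (z : L1) (B : Finset ℕ) (a : ℕ → ℝ),
      ‖toX z - ∑ n ∈ B, a n • x n‖ = NN (z - ∑ n ∈ B, a n • e n) := by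
    intro z B a
    rw [← normX', map_sub, map_sum]
    simp only [map_smul, x]
  have hc : ∀ (z : L1) (B : Finset ℕ),
      ‖toX z - ∑ n ∈ B, f n (toX z) • x n‖ = NN (cut B z) := by
    intro z B
    rw [hs]
    simp only [hf, smul_e, cut]
  refine ⟨XX, inferInstance, inferInstance, inferInstance, x, f, ⟨fun k n => ?_, ?_, ?_⟩, ?_, ?_⟩
  · rw [hf, e_apply]
  · intro v
    obtain ⟨z, rfl⟩ := toX.surjective v
    have h := (lp.hasSum_single (p := 1) (by simp) z).mapL toXL.toContinuousLinearMap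
    refine mem_closure_of_tendsto h (Filter.Eventually.of_forall fun s => ?_)
    refine Submodule.sum_mem _ fun n _ => ?_
    rw [← smul_e, map_smul]
    exact Submodule.smul_mem _ _ (Submodule.subset_span ⟨n, rfl⟩)
  · intro v h
    obtain ⟨z, rfl⟩ := toX.surjective v
    have : z = 0 := lp.ext (funext fun n => h n)
    rw [this, map_zero]
  · intro v A hA
    obtain ⟨z, rfl⟩ := toX.surjective v
    rw [one_mul, hc]
    refine le_csInf ⟨_, A, le_rfl, rfl⟩ ?_
    rintro r ⟨B, hB, rfl⟩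
    rw [hc]
    exact main z A B hA hB
  · intro H
    let z : L1 := (1 / 6 : ℝ) • e 0 + e 1 + e 2
    have hz : ∀ k, z k = (if k = 0 then 1 / 6 else 0) + (if k = 1 then 1 else 0) +
        (if k = 2 then 1 else 0) := by
      intro k
      simp only [z, lp.coeFn_add, lp.coeFn_smul, Pi.add_apply, Pi.smul_apply, e_apply, smul_eq_mul]
      split_ifs <;> simp
    have h := H (toX z) {2} (by
      intro n hn k hk
      rw [mem_singleton] at hn
      rw [hf, hf, hn, hz, hz]
      split_ifs <;> first | omega | (rw [abs_le]; constructor <;> norm_num))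
    have h1 : (13 / 12 : ℝ) ≤
        sInf {r : ℝ | ∃ a : ℕ → ℝ, r = ‖toX z - ∑ n ∈ ({2} : Finset ℕ), a n • x n‖} := by
      refine le_csInf ⟨_, 0, rfl⟩ ?_
      rintro r ⟨a, rfl⟩
      rw [hs]
      refine le_trans (le_of_eq ?_) (G_le_NN 1 _)
      have : ({0, 1} : Finset ℕ).erase 1 = {0} := by decide
      simp only [G, ell, this, sum_singleton, lp.coeFn_sub, lp.coeFn_smul, Pi.sub_apply,
        Pi.smul_apply, e_apply, hz]
      norm_num
    have h2 : sigma x ({2} : Finset ℕ).card (toX z) ≤ 1 := by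
      unfold sigma
      refine csInf_le_of_le ⟨0, by rintro r ⟨B, a, -, rfl⟩; exact norm_nonneg _⟩
        ⟨{1}, fun _ => 7 / 6, by simp, rfl⟩ ?_
      rw [hs, sum_singleton]
      have hw : ∀ k, (z - (7 / 6 : ℝ) • e 1) k = (if k = 0 then 1 / 6 else 0) +
          (if k = 1 then -1 / 6 else 0) + (if k = 2 then 1 else 0) := by
        intro k
        simp only [lp.coeFn_sub, lp.coeFn_smul, Pi.sub_apply, Pi.smul_apply, e_apply, hz,
          smul_eq_mul]
        split_ifs <;> first | omega | norm_num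
      refine NN_le ?_ fun i => ?_
      · have e1 : z - (7 / 6 : ℝ) • e 1 = (1 / 6 : ℝ) • e 0 + (-1 / 6 : ℝ) • e 1 + e 2 := by
          simp only [z]; module
        have hn : ∀ n, ‖e n‖ = 1 := fun n => by rw [e, lp.norm_single (by simp)]; simp
        have := norm_add₃_le (a := (1 / 6 : ℝ) • e 0) (b := (-1 / 6 : ℝ) • e 1) (c := e 2)
        rw [norm_smul, norm_smul, hn, hn, hn] at this
        rw [e1]
        norm_num at this ⊢
        linarith
      · by_cases h0 : i = 0
        · have : ({0, 1} : Finset ℕ).erase 0 = {1} := by decide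
          simp only [G, ell, h0, this, sum_singleton, hw]
          norm_num [abs_div]
        by_cases h1 : i = 1
        · have : ({0, 1} : Finset ℕ).erase 1 = {0} := by decide
          simp only [G, ell, h1, this, sum_singleton, hw]
          norm_num [abs_div]
        · have : ({0, 1} : Finset ℕ).erase i = {0, 1} := erase_eq_of_notMem (by simp [h0, h1])
          simp only [G, ell, this, sum_pair zero_ne_one, hw, h0, h1]
          split_ifs <;> first | contradiction | norm_num
    linarith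

end Pool.Agent.Results.MP_b7f2f1_an.NotSemiGreedy
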